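import Pool.Agent.Helper34.PU.Goals

/-!
MP_8060f4_co, packet WR : weak regularity (energy increment).
-/

set_option autoImplicit false

open Finset Function
open scoped Classical

namespace Pool.Agent.Helper64.PU

open Pool.Agent.Helper34.PU

/-- conditional average over the classes of `l` -/
noncomputable def ca {α S : Type} (B : Finset α) (l : α → S) (g : α → ℝ) (i : α) : ℝ :=
  avg (B.filter (fun i' => l i' = l i)) g

lemma ca_sum {α S : Type} (B : Finset α) (l : α → S) (g u : α → ℝ)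
    (hu : ∀ i ∈ B, ∀ i' ∈ B, l i = l i' → u i = u i') :
    ∑ i ∈ B, ca B l g i * u i = ∑ i ∈ B, g i * u i := by
  have h1 : ∀ i ∈ B, ca B l g i * u i =
      ∑ i' ∈ B, if l i' = l i then
        g i' * u i' / ((B.filter (fun k => l k = l i')).card : ℝ) else 0 := by
    intro i hi
    unfold ca avg
    rw [Finset.sum_div, Finset.sum_mul, Finset.sum_filter]
    apply Finset.sum_congr rfl
    intro i' hi'
    by_cases h : l i' = l i
    · rw [if_pos h, if_pos h, hu i' hi' i hi h, h]; ring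
    · rw [if_neg h, if_neg h]
  rw [Finset.sum_congr rfl h1, Finset.sum_comm]
  apply Finset.sum_congr rfl
  intro i' hi'
  rw [← Finset.sum_filter, Finset.sum_const]
  have h2 : (B.filter (fun i => l i' = l i)) = B.filter (fun k => l k = l i') := by
    apply Finset.filter_congr; intros; exact eq_comm
  rw [h2, nsmul_eq_mul]
  have h3 : ((B.filter (fun k => l k = l i')).card : ℝ) ≠ 0 := by
    have : (B.filter (fun k => l k = l i')).Nonempty := ⟨i', by simp [hi']⟩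
    exact_mod_cast this.card_pos.ne'
  field_simp

/-- density of `f` on the product of two classes -/
noncomputable def Wd {α S S' : Type} (B : Finset α) (l1 : α → S) (l2 : α → S')
    (f : α → α → ℝ) (i j : α) : ℝ :=
  ca B l1 (fun i' => ca B l2 (f i') j) i

lemma Wd_sum {α S S' : Type} (B : Finset α) (l1 : α → S) (l2 : α → S')
    (f h : α → α → ℝ)
    (h1 : ∀ j ∈ B, ∀ i ∈ B, ∀ i' ∈ B, l1 i = l1 i' → h i j = h i' j)
    (h2 : ∀ i ∈ B, ∀ j ∈ B, ∀ j' ∈ B, l2 j = l2 j' → h i j = h i j') :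
    ∑ i ∈ B, ∑ j ∈ B, Wd B l1 l2 f i j * h i j = ∑ i ∈ B, ∑ j ∈ B, f i j * h i j := by
  rw [Finset.sum_comm]
  have : ∀ j ∈ B, ∑ i ∈ B, Wd B l1 l2 f i j * h i j = ∑ i ∈ B, ca B l2 (f i) j * h i j := by
    intro j hj
    exact ca_sum B l1 (fun i' => ca B l2 (f i') j) (fun i => h i j) (h1 j hj)
  rw [Finset.sum_congr rfl this, Finset.sum_comm]
  apply Finset.sum_congr rfl
  intro i hi
  exact ca_sum B l2 (f i) (h i) (h2 i hi)

lemma ca_congr {α S : Type} (B : Finset α) (l : α → S) (g : α → ℝ) (i i' : α)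
    (h : l i = l i') : ca B l g i = ca B l g i' := by
  unfold ca; rw [h]

lemma Wd_left {α S S' : Type} (B : Finset α) (l1 : α → S) (l2 : α → S')
    (f : α → α → ℝ) (i i' j : α) (h : l1 i = l1 i') : Wd B l1 l2 f i j = Wd B l1 l2 f i' j := by
  unfold Wd; exact ca_congr _ _ _ _ _ h

lemma Wd_right {α S S' : Type} (B : Finset α) (l1 : α → S) (l2 : α → S')
    (f : α → α → ℝ) (i j j' : α) (h : l2 j = l2 j') : Wd B l1 l2 f i j = Wd B l1 l2 f i j' := by
  unfold Wd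
  have : (fun i' => ca B l2 (f i') j) = (fun i' => ca B l2 (f i') j') := by
    funext i'; exact ca_congr _ _ _ _ _ h
  rw [this]

lemma avg_mem {α : Type} (A : Finset α) (g : α → ℝ) (h : ∀ i, 0 ≤ g i ∧ g i ≤ 1) :
    0 ≤ avg A g ∧ avg A g ≤ 1 := by
  unfold avg
  constructor
  · exact div_nonneg (Finset.sum_nonneg fun i _ => (h i).1) (Nat.cast_nonneg _)
  · apply div_le_one_of_le₀ _ (Nat.cast_nonneg _)
    calc ∑ i ∈ A, g i ≤ ∑ i ∈ A, (1:ℝ) := Finset.sum_le_sum fun i _ => (h i).2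
      _ = A.card := by simp

lemma Wd_mem {α S S' : Type} (B : Finset α) (l1 : α → S) (l2 : α → S')
    (f : α → α → ℝ) (hf : ∀ i j, 0 ≤ f i j ∧ f i j ≤ 1) (i j : α) :
    0 ≤ Wd B l1 l2 f i j ∧ Wd B l1 l2 f i j ≤ 1 := by
  unfold Wd
  apply avg_mem
  intro i'
  exact avg_mem _ _ (hf i')

/-- unnormalised energy of one pair -/
noncomputable def en1 {α S S' : Type} (B : Finset α) (l1 : α → S) (l2 : α → S')
    (f : α → α → ℝ) : ℝ := ∑ i ∈ B, ∑ j ∈ B, (Wd B l1 l2 f i j) ^ 2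

lemma en1_le {α S S' : Type} (B : Finset α) (l1 : α → S) (l2 : α → S')
    (f : α → α → ℝ) (hf : ∀ i j, 0 ≤ f i j ∧ f i j ≤ 1) : en1 B l1 l2 f ≤ (B.card : ℝ) ^ 2 := by
  unfold en1
  calc ∑ i ∈ B, ∑ j ∈ B, (Wd B l1 l2 f i j) ^ 2 ≤ ∑ i ∈ B, ∑ j ∈ B, (1 : ℝ) := by
        apply Finset.sum_le_sum; intro i _
        apply Finset.sum_le_sum; intro j _
        obtain ⟨h0, h1⟩ := Wd_mem B l1 l2 f hf i j
        nlinarith
    _ = (B.card : ℝ) ^ 2 := by simp; ring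

/-- Pythagoras -/
lemma pyth {α S S' R R' : Type} (B : Finset α) (l1 : α → S) (l2 : α → S') (m1 : α → R)
    (m2 : α → R') (f : α → α → ℝ)
    (hm1 : ∀ i i', m1 i = m1 i' → l1 i = l1 i') (hm2 : ∀ i i', m2 i = m2 i' → l2 i = l2 i') :
    ∑ i ∈ B, ∑ j ∈ B, (Wd B m1 m2 f i j - Wd B l1 l2 f i j) ^ 2 =
      en1 B m1 m2 f - en1 B l1 l2 f := by
  have e1 := Wd_sum B l1 l2 f (Wd B l1 l2 f)
    (fun j _ i _ i' _ h => Wd_left B l1 l2 f i i' j h)
    (fun i _ j _ j' _ h => Wd_right B l1 l2 f i j j' h)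
  have e2 := Wd_sum B m1 m2 f (Wd B l1 l2 f)
    (fun j _ i _ i' _ h => Wd_left B l1 l2 f i i' j (hm1 _ _ h))
    (fun i _ j _ j' _ h => Wd_right B l1 l2 f i j j' (hm2 _ _ h))
  unfold en1
  have e3 : ∑ i ∈ B, ∑ j ∈ B, (Wd B m1 m2 f i j - Wd B l1 l2 f i j) ^ 2 =
      ∑ i ∈ B, ∑ j ∈ B, (Wd B m1 m2 f i j) ^ 2
      - 2 * ∑ i ∈ B, ∑ j ∈ B, Wd B m1 m2 f i j * Wd B l1 l2 f i j
      + ∑ i ∈ B, ∑ j ∈ B, Wd B l1 l2 f i j * Wd B l1 l2 f i j := by
    rw [Finset.mul_sum, ← Finset.sum_sub_distrib, ← Finset.sum_add_distrib]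
    apply Finset.sum_congr rfl; intro i _
    rw [Finset.mul_sum, ← Finset.sum_sub_distrib, ← Finset.sum_add_distrib]
    apply Finset.sum_congr rfl; intro j _
    ring
  have e4 : ∑ i ∈ B, ∑ j ∈ B, (Wd B l1 l2 f i j) ^ 2 =
      ∑ i ∈ B, ∑ j ∈ B, Wd B l1 l2 f i j * Wd B l1 l2 f i j := by
    apply Finset.sum_congr rfl; intro i _
    apply Finset.sum_congr rfl; intro j _
    ring
  rw [e3, e4, e2, e1]; ring

lemma en1_mono {α S S' R R' : Type} (B : Finset α) (l1 : α → S) (l2 : α → S') (m1 : α → R)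
    (m2 : α → R') (f : α → α → ℝ)
    (hm1 : ∀ i i', m1 i = m1 i' → l1 i = l1 i') (hm2 : ∀ i i', m2 i = m2 i' → l2 i = l2 i') :
    en1 B l1 l2 f ≤ en1 B m1 m2 f := by
  have := pyth B l1 l2 m1 m2 f hm1 hm2
  have h0 : 0 ≤ ∑ i ∈ B, ∑ j ∈ B, (Wd B m1 m2 f i j - Wd B l1 l2 f i j) ^ 2 :=
    Finset.sum_nonneg fun i _ => Finset.sum_nonneg fun j _ => sq_nonneg _
  linarith

/-- large box norm gives a correlation -/
lemma box_step {α : Type} (B : Finset α) (hB : B.Nonempty) (F : α → α → ℝ)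
    (hF : ∀ i j, |F i j| ≤ 1) (ε : ℝ) (h : ε < box4 B B F) :
    ∃ i0 j0, ε * (B.card : ℝ) ^ 2 < |∑ i ∈ B, ∑ j ∈ B, F i j * (F i j0 * F i0 j)| := by
  by_contra hcon
  push Not at hcon
  have hn : (0 : ℝ) < B.card := by exact_mod_cast hB.card_pos
  have e1 : box4 B B F =
      (∑ i ∈ B, ∑ i' ∈ B, (∑ j ∈ B, F i j * F i' j) ^ 2) / (B.card : ℝ) ^ 4 := by
    unfold box4 avg
    rw [Finset.sum_div, Finset.sum_div]
    apply Finset.sum_congr rfl; intro i _
    rw [Finset.sum_div, Finset.sum_div, Finset.sum_div]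
    apply Finset.sum_congr rfl; intro i' _
    field_simp
  have e2 : (∑ i ∈ B, ∑ i' ∈ B, (∑ j ∈ B, F i j * F i' j) ^ 2) =
      ∑ i' ∈ B, ∑ j' ∈ B, F i' j' * ∑ i ∈ B, ∑ j ∈ B, F i j * (F i j' * F i' j) := by
    rw [Finset.sum_comm]
    apply Finset.sum_congr rfl; intro i' _
    have e3 : ∀ i ∈ B, (∑ j ∈ B, F i j * F i' j) ^ 2 =
        ∑ j' ∈ B, ∑ j ∈ B, F i' j' * (F i j * (F i j' * F i' j)) := by
      intro i _
      rw [pow_two, Finset.sum_mul_sum, Finset.sum_comm]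
      apply Finset.sum_congr rfl; intro j' _
      apply Finset.sum_congr rfl; intro j _
      ring
    rw [Finset.sum_congr rfl e3, Finset.sum_comm]
    apply Finset.sum_congr rfl; intro j' _
    rw [Finset.mul_sum]
    apply Finset.sum_congr rfl; intro i _
    rw [Finset.mul_sum]
  have e4 : (∑ i ∈ B, ∑ i' ∈ B, (∑ j ∈ B, F i j * F i' j) ^ 2) ≤ ε * (B.card : ℝ) ^ 4 := by
    rw [e2]
    calc ∑ i' ∈ B, ∑ j' ∈ B, F i' j' * ∑ i ∈ B, ∑ j ∈ B, F i j * (F i j' * F i' j)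
        ≤ ∑ i' ∈ B, ∑ j' ∈ B, ε * (B.card : ℝ) ^ 2 := by
          apply Finset.sum_le_sum; intro i' _
          apply Finset.sum_le_sum; intro j' _
          calc F i' j' * ∑ i ∈ B, ∑ j ∈ B, F i j * (F i j' * F i' j)
              ≤ |F i' j' * ∑ i ∈ B, ∑ j ∈ B, F i j * (F i j' * F i' j)| := le_abs_self _
            _ = |F i' j'| * |∑ i ∈ B, ∑ j ∈ B, F i j * (F i j' * F i' j)| := abs_mul _ _
            _ ≤ 1 * |∑ i ∈ B, ∑ j ∈ B, F i j * (F i j' * F i' j)| :=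
                mul_le_mul_of_nonneg_right (hF _ _) (abs_nonneg _)
            _ ≤ ε * (B.card : ℝ) ^ 2 := by rw [one_mul]; exact hcon i' j'
      _ = ε * (B.card : ℝ) ^ 4 := by simp; ring
  have e5 : box4 B B F ≤ ε := by
    rw [e1, div_le_iff₀ (by positivity)]
    exact e4
  linarith

/-- the error function -/
noncomputable def er {α S S' : Type} (B : Finset α) (l1 : α → S) (l2 : α → S')
    (f : α → α → ℝ) (i j : α) : ℝ := f i j - Wd B l1 l2 f i j

/-- energy increment for one pair -/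
lemma en1_incr {α S S' R R' : Type} (B : Finset α) (hB : B.Nonempty) (l1 : α → S) (l2 : α → S')
    (m1 : α → R) (m2 : α → R') (f : α → α → ℝ) (hf : ∀ i j, 0 ≤ f i j ∧ f i j ≤ 1)
    (hm1 : ∀ i i', m1 i = m1 i' → l1 i = l1 i') (hm2 : ∀ i i', m2 i = m2 i' → l2 i = l2 i')
    (ε : ℝ) (hε : 0 < ε) (i0 j0 : α)
    (h : ε * (B.card : ℝ) ^ 2 < |∑ i ∈ B, ∑ j ∈ B, er B l1 l2 f i j *
      (er B l1 l2 f i j0 * er B l1 l2 f i0 j)|)
    (hf1 : ∀ i i', m1 i = m1 i' → f i j0 = f i' j0)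
    (hf2 : ∀ j j', m2 j = m2 j' → f i0 j = f i0 j') :
    en1 B l1 l2 f + ε ^ 2 * (B.card : ℝ) ^ 2 ≤ en1 B m1 m2 f := by
  have hn : (0 : ℝ) < B.card := by exact_mod_cast hB.card_pos
  have habs : ∀ i j, |er B l1 l2 f i j| ≤ 1 := by
    intro i j
    obtain ⟨a0, a1⟩ := hf i j
    obtain ⟨b0, b1⟩ := Wd_mem B l1 l2 f hf i j
    unfold er
    rw [abs_le]; constructor <;> linarith
  have e1 := Wd_sum B m1 m2 f (fun i j => er B l1 l2 f i j0 * er B l1 l2 f i0 j)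
    (by
      intro j _ i _ i' _ hh
      have : er B l1 l2 f i j0 = er B l1 l2 f i' j0 := by
        unfold er; rw [hf1 i i' hh, Wd_left B l1 l2 f i i' j0 (hm1 _ _ hh)]
      simp only [this])
    (by
      intro i _ j _ j' _ hh
      have : er B l1 l2 f i0 j = er B l1 l2 f i0 j' := by
        unfold er; rw [hf2 j j' hh, Wd_right B l1 l2 f i0 j j' (hm2 _ _ hh)]
      simp only [this])
  have e2 : ∑ i ∈ B, ∑ j ∈ B, er B l1 l2 f i j * (er B l1 l2 f i j0 * er B l1 l2 f i0 j) =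
      ∑ i ∈ B, ∑ j ∈ B, (Wd B m1 m2 f i j - Wd B l1 l2 f i j) *
        (er B l1 l2 f i j0 * er B l1 l2 f i0 j) := by
    have e3 : ∀ g : α → α → ℝ, ∑ i ∈ B, ∑ j ∈ B, (g i j - Wd B l1 l2 f i j) *
        (er B l1 l2 f i j0 * er B l1 l2 f i0 j) =
        ∑ i ∈ B, ∑ j ∈ B, g i j * (er B l1 l2 f i j0 * er B l1 l2 f i0 j) -
        ∑ i ∈ B, ∑ j ∈ B, Wd B l1 l2 f i j * (er B l1 l2 f i j0 * er B l1 l2 f i0 j) := by
      intro g
      rw [← Finset.sum_sub_distrib]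
      apply Finset.sum_congr rfl; intro i _
      rw [← Finset.sum_sub_distrib]
      apply Finset.sum_congr rfl; intro j _
      ring
    have e4 : ∑ i ∈ B, ∑ j ∈ B, er B l1 l2 f i j * (er B l1 l2 f i j0 * er B l1 l2 f i0 j) =
        ∑ i ∈ B, ∑ j ∈ B, (f i j - Wd B l1 l2 f i j) *
        (er B l1 l2 f i j0 * er B l1 l2 f i0 j) := rfl
    rw [e4, e3 f, e3 (Wd B m1 m2 f), e1]
  rw [e2] at h
  -- Cauchy-Schwarz
  have cs : (∑ i ∈ B, ∑ j ∈ B, (Wd B m1 m2 f i j - Wd B l1 l2 f i j) *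
        (er B l1 l2 f i j0 * er B l1 l2 f i0 j)) ^ 2 ≤
      (∑ i ∈ B, ∑ j ∈ B, (Wd B m1 m2 f i j - Wd B l1 l2 f i j) ^ 2) *
      (∑ i ∈ B, ∑ j ∈ B, (er B l1 l2 f i j0 * er B l1 l2 f i0 j) ^ 2) := by
    rw [← Finset.sum_product', ← Finset.sum_product', ← Finset.sum_product']
    exact Finset.sum_mul_sq_le_sq_mul_sq (B ×ˢ B)
      (fun x => Wd B m1 m2 f x.1 x.2 - Wd B l1 l2 f x.1 x.2)
      (fun x => er B l1 l2 f x.1 j0 * er B l1 l2 f i0 x.2)
  have hb : ∑ i ∈ B, ∑ j ∈ B, (er B l1 l2 f i j0 * er B l1 l2 f i0 j) ^ 2 ≤ (B.card : ℝ) ^ 2 := by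
    calc ∑ i ∈ B, ∑ j ∈ B, (er B l1 l2 f i j0 * er B l1 l2 f i0 j) ^ 2
        ≤ ∑ i ∈ B, ∑ j ∈ B, (1 : ℝ) := by
          apply Finset.sum_le_sum; intro i _
          apply Finset.sum_le_sum; intro j _
          rw [← sq_abs, abs_mul]
          have h1 := habs i j0
          have h2 := habs i0 j
          have h3 : |er B l1 l2 f i j0| * |er B l1 l2 f i0 j| ≤ 1 :=
            mul_le_one₀ h1 (abs_nonneg _) h2
          have h4 : 0 ≤ |er B l1 l2 f i j0| * |er B l1 l2 f i0 j| := by positivity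
          nlinarith
      _ = (B.card : ℝ) ^ 2 := by simp; ring
  rw [pyth B l1 l2 m1 m2 f hm1 hm2] at cs
  have hd : 0 ≤ en1 B m1 m2 f - en1 B l1 l2 f := by
    have := en1_mono B l1 l2 m1 m2 f hm1 hm2
    linarith
  have k1 : (ε * (B.card : ℝ) ^ 2) ^ 2 ≤ (en1 B m1 m2 f - en1 B l1 l2 f) * (B.card : ℝ) ^ 2 := by
    calc (ε * (B.card : ℝ) ^ 2) ^ 2 ≤ |∑ i ∈ B, ∑ j ∈ B,
          (Wd B m1 m2 f i j - Wd B l1 l2 f i j) *
          (er B l1 l2 f i j0 * er B l1 l2 f i0 j)| ^ 2 :=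
          pow_le_pow_left₀ (by positivity) h.le 2
      _ = (∑ i ∈ B, ∑ j ∈ B, (Wd B m1 m2 f i j - Wd B l1 l2 f i j) *
          (er B l1 l2 f i j0 * er B l1 l2 f i0 j)) ^ 2 := sq_abs _
      _ ≤ _ := cs
      _ ≤ _ := mul_le_mul_of_nonneg_left hb hd
  have k2 : ε ^ 2 * (B.card : ℝ) ^ 2 ≤ en1 B m1 m2 f - en1 B l1 l2 f := by
    have hn2 : (0 : ℝ) < (B.card : ℝ) ^ 2 := by positivity
    apply le_of_mul_le_mul_right _ hn2
    calc ε ^ 2 * (B.card : ℝ) ^ 2 * (B.card : ℝ) ^ 2 = (ε * (B.card : ℝ) ^ 2) ^ 2 := by ring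
      _ ≤ _ := k1
  linarith

/-- indicator of a colour -/
noncomputable def ic {α : Type} {Q r : ℕ} (col : Fin Q → Fin Q → α → α → Fin r)
    (x : Fin Q × Fin Q × Fin r) (i j : α) : ℝ := if col x.1 x.2.1 i j = x.2.2 then 1 else 0

lemma ic_mem {α : Type} {Q r : ℕ} (col : Fin Q → Fin Q → α → α → Fin r)
    (x : Fin Q × Fin Q × Fin r) (i j : α) : 0 ≤ ic col x i j ∧ ic col x i j ≤ 1 := by
  unfold ic; split_ifs <;> norm_num

/-- total energy -/
noncomputable def en {α S : Type} {Q r : ℕ} (B : Finset α)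
    (col : Fin Q → Fin Q → α → α → Fin r) (l : Fin Q → α → S) : ℝ :=
  ∑ x : Fin Q × Fin Q × Fin r, en1 B (l x.1) (l x.2.1) (ic col x)

lemma en_le {α S : Type} {Q r : ℕ} (B : Finset α)
    (col : Fin Q → Fin Q → α → α → Fin r) (l : Fin Q → α → S) :
    en B col l ≤ (Q : ℝ) ^ 2 * r * (B.card : ℝ) ^ 2 := by
  unfold en
  calc ∑ x : Fin Q × Fin Q × Fin r, en1 B (l x.1) (l x.2.1) (ic col x)
      ≤ ∑ x : Fin Q × Fin Q × Fin r, (B.card : ℝ) ^ 2 :=
        Finset.sum_le_sum fun x _ => en1_le _ _ _ _ (ic_mem col x)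
    _ = (Q : ℝ) ^ 2 * r * (B.card : ℝ) ^ 2 := by
        rw [Finset.sum_const, Finset.card_univ, Fintype.card_prod, Fintype.card_prod,
          Fintype.card_fin, Fintype.card_fin, nsmul_eq_mul]
        push_cast; ring

/-- good labellings -/
def Good {α S : Type} {Q r : ℕ} (B : Finset α) (ε : ℝ)
    (col : Fin Q → Fin Q → α → α → Fin r) (l : Fin Q → α → S) : Prop :=
  ∀ x : Fin Q × Fin Q × Fin r, box4 B B (er B (l x.1) (l x.2.1) (ic col x)) ≤ ε

lemma step {α S : Type} {Q r : ℕ} (B : Finset α) (hB : B.Nonempty) (ε : ℝ) (hε : 0 < ε)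
    (col : Fin Q → Fin Q → α → α → Fin r) (l : Fin Q → α → S) (hl : ¬ Good B ε col l) :
    ∃ l' : Fin Q → α → S × Bool × Bool,
      en B col l + ε ^ 2 * (B.card : ℝ) ^ 2 ≤ en B col l' := by
  unfold Good at hl
  push Not at hl
  obtain ⟨x, hx⟩ := hl
  have habs : ∀ i j, |er B (l x.1) (l x.2.1) (ic col x) i j| ≤ 1 := by
    intro i j
    obtain ⟨a0, a1⟩ := ic_mem col x i j
    obtain ⟨b0, b1⟩ := Wd_mem B (l x.1) (l x.2.1) (ic col x) (ic_mem col x) i j
    unfold er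
    rw [abs_le]; constructor <;> linarith
  obtain ⟨i0, j0, h⟩ := box_step B hB _ habs ε hx
  let l' : Fin Q → α → S × Bool × Bool := fun t i =>
    (l t i, decide (t = x.1 ∧ col x.1 x.2.1 i j0 = x.2.2),
      decide (t = x.2.1 ∧ col x.1 x.2.1 i0 i = x.2.2))
  refine ⟨l', ?_⟩
  have hr : ∀ t i i', l' t i = l' t i' → l t i = l t i' := by
    intro t i i' hh
    exact congrArg Prod.fst hh
  have hmono : ∀ y : Fin Q × Fin Q × Fin r,
      en1 B (l y.1) (l y.2.1) (ic col y) ≤ en1 B (l' y.1) (l' y.2.1) (ic col y) := by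
    intro y
    exact en1_mono B _ _ _ _ _ (hr _) (hr _)
  have hx' : en1 B (l x.1) (l x.2.1) (ic col x) + ε ^ 2 * (B.card : ℝ) ^ 2 ≤
      en1 B (l' x.1) (l' x.2.1) (ic col x) := by
    apply en1_incr B hB (l x.1) (l x.2.1) (l' x.1) (l' x.2.1) (ic col x) (ic_mem col x)
      (hr _) (hr _) ε hε i0 j0 h
    · intro i i' hh
      have h1 := congrArg (fun z => z.2.1) hh
      simp only [l', true_and, decide_eq_decide] at h1
      unfold ic
      simp only [h1]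
    · intro j j' hh
      have h1 := congrArg (fun z => z.2.2) hh
      simp only [l', true_and, decide_eq_decide] at h1
      unfold ic
      simp only [h1]
  unfold en
  have h5 : ∑ y ∈ (univ.erase x : Finset (Fin Q × Fin Q × Fin r)),
      en1 B (l y.1) (l y.2.1) (ic col y) ≤
      ∑ y ∈ (univ.erase x : Finset (Fin Q × Fin Q × Fin r)),
      en1 B (l' y.1) (l' y.2.1) (ic col y) := Finset.sum_le_sum fun y _ => hmono y
  rw [← Finset.add_sum_erase univ (fun y : Fin Q × Fin Q × Fin r =>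
      en1 B (l y.1) (l y.2.1) (ic col y)) (Finset.mem_univ x),
    ← Finset.add_sum_erase univ (fun y : Fin Q × Fin Q × Fin r =>
      en1 B (l' y.1) (l' y.2.1) (ic col y)) (Finset.mem_univ x)]
  linarith

lemma iterate {α : Type} {Q r : ℕ} (B : Finset α) (hB : B.Nonempty) (ε : ℝ) (hε : 0 < ε)
    (col : Fin Q → Fin Q → α → α → Fin r) : ∀ m : ℕ,
    ∃ (S : Type) (_ : Fintype S) (l : Fin Q → α → S), Fintype.card S ≤ 4 ^ m ∧
      (Good B ε col l ∨ m * (ε ^ 2 * (B.card : ℝ) ^ 2) ≤ en B col l) := by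
  intro m
  induction m with
  | zero =>
    refine ⟨Unit, inferInstance, fun _ _ => (), by simp, Or.inr ?_⟩
    unfold en en1
    simp only [Nat.cast_zero, zero_mul]
    exact Finset.sum_nonneg fun x _ => Finset.sum_nonneg fun i _ =>
      Finset.sum_nonneg fun j _ => sq_nonneg _
  | succ m ih =>
    obtain ⟨S, hS, l, hc, hl⟩ := ih
    by_cases hg : Good B ε col l
    · refine ⟨S, hS, l, hc.trans ?_, Or.inl hg⟩
      exact Nat.pow_le_pow_right (by norm_num) (Nat.le_succ m)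
    · have h1 := hl.resolve_left hg
      obtain ⟨l', hl'⟩ := step B hB ε hε col l hg
      refine ⟨S × Bool × Bool, inferInstance, l', ?_, Or.inr ?_⟩
      · simp only [Fintype.card_prod, Fintype.card_bool]
        rw [pow_succ]
        exact Nat.mul_le_mul hc (by norm_num)
      · push_cast
        linarith

lemma box4_congr {α : Type} (B : Finset α) (F G : α → α → ℝ)
    (h : ∀ i ∈ B, ∀ j ∈ B, F i j = G i j) : box4 B B F = box4 B B G := by
  have h1 : ∀ i ∈ B, ∀ i' ∈ B, ∑ j ∈ B, F i j * F i' j = ∑ j ∈ B, G i j * G i' j := by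
    intro i hi i' hi'
    apply Finset.sum_congr rfl; intro j hj
    rw [h i hi j hj, h i' hi' j hj]
  unfold box4 avg
  refine congrArg (fun z : ℝ => z / (B.card : ℝ)) (Finset.sum_congr rfl fun i hi => ?_)
  refine congrArg (fun z : ℝ => z / (B.card : ℝ)) (Finset.sum_congr rfl fun i' hi' => ?_)
  have h2 := h1 i hi i' hi'
  exact congrArg (fun z : ℝ => (z / (B.card : ℝ)) ^ 2) h2

theorem wr : WRStmt := by
  intro Q r ε hr hε
  obtain ⟨m, hm⟩ := exists_nat_gt ((Q : ℝ) ^ 2 * r / ε ^ 2)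
  refine ⟨4 ^ m, Nat.one_le_pow _ _ (by norm_num), ?_⟩
  intro α B col
  rcases B.eq_empty_or_nonempty with hB | hB
  · subst hB
    refine ⟨fun _ _ => ⟨0, by positivity⟩, ?_⟩
    intro p q c
    unfold box4 avg
    simp only [Finset.sum_empty, zero_div]
    exact hε.le
  obtain ⟨S, hS, l, hc, hl⟩ := iterate B hB ε hε col m
  have hn : (0 : ℝ) < B.card := by exact_mod_cast hB.card_pos
  have hg : Good B ε col l := by
    rcases hl with h | h
    · exact h
    · exfalso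
      have h1 := en_le B col l
      rw [div_lt_iff₀ (by positivity)] at hm
      have h2 : (Q : ℝ) ^ 2 * r * (B.card : ℝ) ^ 2 < m * ε ^ 2 * (B.card : ℝ) ^ 2 :=
        mul_lt_mul_of_pos_right hm (by positivity)
      nlinarith
  have hcard : Fintype.card S ≤ Fintype.card (Fin (4 ^ m)) := by simpa using hc
  obtain ⟨σ⟩ := Function.Embedding.nonempty_of_card_le hcard
  refine ⟨fun t i => σ (l t i), ?_⟩
  intro p q c
  have h1 := hg (p, q, c)
  rw [box4_congr B _ (er B (l p) (l q) (ic col (p, q, c)))]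
  · exact h1
  intro i hi j hj
  unfold er
  have e1 : ic col (p, q, c) i j = if col p q i j = c then 1 else 0 := rfl
  rw [e1]
  congr 1
  unfold Wc
  have f1 : B.filter (fun k => σ (l p k) = σ (l p i)) = B.filter (fun k => l p k = l p i) := by
    apply Finset.filter_congr; intro k _
    exact σ.injective.eq_iff
  have f2 : B.filter (fun k => σ (l q k) = σ (l q j)) = B.filter (fun k => l q k = l q j) := by
    apply Finset.filter_congr; intro k _
    exact σ.injective.eq_iff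
  rw [f1, f2, if_pos]
  · rfl
  · exact ⟨⟨i, by simp [hi]⟩, ⟨j, by simp [hj]⟩⟩

end Pool.Agent.Helper64.PU

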